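import Pool.Agent.W21.HN.Casc

set_option autoImplicit false

namespace Pool.Agent.W21.HN

open Finset

/-- **Refinement lemma.** A family of cascades in which every occurring level `t` (with
`θ t > ε`) is followed by at least `M` occurrences of the level `t + 1` has sums approximating
every real between the extreme sums, up to `ε`. -/
theorem refine_aux {ι : Type*} [Fintype ι] [DecidableEq ι] (P : ι → ℝ → Prop) (θ : ℕ → ℝ)
    (β ε : ℝ) (M : ℕ) (hβ : 0 < β) (hθ : ∀ k, 0 < θ k) (hanti : Antitone θ) (hε : 0 ≤ ε)
    (hM : ∀ t, β * θ t ≤ ((M : ℝ) - 1) * θ (t + 1)) (y : ℝ) :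
    ∀ (n : ℕ) (L : ι → List ℕ) (lo hi : ι → ℝ), (∑ i, (L i).length = n) →
      (∀ i, (L i).Pairwise (· < ·)) → (∀ i, Casc (P i) θ β (L i) (lo i) (hi i)) →
      (∀ t, (∃ i, t ∈ L i) → θ t ≤ ε ∨ M ≤ (univ.filter (fun j => t + 1 ∈ L j)).card) →
      (∑ i, lo i ≤ y) → (y ≤ ∑ i, hi i + ε) →
      ∃ x : ι → ℝ, (∀ i, P i (x i)) ∧ ∑ i, x i ≤ y ∧ y ≤ ∑ i, x i + ε := by
  intro n
  induction n with
  | zero =>
    intro L lo hi hlen hsort hcasc hcov hlo hhi
    have hnil : ∀ i, L i = [] := by
      intro i
      have := (Finset.sum_eq_zero_iff.mp hlen) i (mem_univ i)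
      exact List.eq_nil_of_length_eq_zero this
    have h1 : ∀ i, lo i = hi i ∧ P i (lo i) := by
      intro i
      have := hcasc i
      rw [hnil i] at this
      exact this.nil_inv
    refine ⟨lo, fun i => (h1 i).2, hlo, ?_⟩
    have : ∑ i, lo i = ∑ i, hi i := Finset.sum_congr rfl (fun i _ => (h1 i).1)
    rw [this]
    exact hhi
  | succ n ih =>
    intro L lo hi hlen hsort hcasc hcov hlo hhi
    classical
    -- a minimal level
    have hex : ∃ k, ∃ i, k ∈ L i := by
      by_contra hcon
      push Not at hcon
      have : ∑ i, (L i).length = 0 := by
        apply Finset.sum_eq_zero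
        intro i _
        rw [List.length_eq_zero_iff]
        exact List.eq_nil_iff_forall_not_mem.mpr (fun a => hcon a i)
      omega
    set k := Nat.find hex with hk
    obtain ⟨i, hki⟩ := Nat.find_spec hex
    have hkmin : ∀ t j, t ∈ L j → k ≤ t := fun t j ht => Nat.find_min' hex ⟨j, ht⟩
    -- decompose the list
    obtain ⟨L', hL'⟩ : ∃ L', L i = k :: L' := by
      rcases hLi : L i with _ | ⟨k', L'⟩
      · rw [hLi] at hki; simp at hki
      · refine ⟨L', ?_⟩
        have h1 : k ≤ k' := hkmin k' i (by rw [hLi]; simp)
        have h2 : k ∈ k' :: L' := by rw [← hLi]; exact hki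
        have h3 := hsort i
        rw [hLi, List.pairwise_cons] at h3
        rcases List.mem_cons.mp h2 with h4 | h4
        · rw [h4]
        · have := h3.1 k h4
          omega
    have hci := hcasc i
    rw [hL'] at hci
    obtain ⟨a', c', hA, hC, hup, hgap⟩ := hci.cons_inv
    have hlen_nonneg : ∀ j, lo j ≤ hi j := fun j => (hcasc j).le hβ hθ
    have ha' : lo i ≤ a' := hA.le hβ hθ
    have hc' : c' ≤ hi i := hC.le hβ hθ
    have hsortL' : L'.Pairwise (· < ·) := by
      have := hsort i
      rw [hL', List.pairwise_cons] at this
      exact this.2
    -- the others dominate the gap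
    have hdom : c' - a' ≤ ∑ j ∈ univ.erase i, (hi j - lo j) + ε := by
      have hnn : 0 ≤ ∑ j ∈ univ.erase i, (hi j - lo j) :=
        Finset.sum_nonneg (fun j _ => by linarith [hlen_nonneg j])
      have hle : c' - a' ≤ θ k := by linarith
      rcases hcov k ⟨i, hki⟩ with h | h
      · linarith
      · set S := univ.filter (fun j => k + 1 ∈ L j) with hS
        have hlenj : ∀ j ∈ S, θ (k + 1) ≤ β * (hi j - lo j) := by
          intro j hj
          rw [hS, Finset.mem_filter] at hj
          have hj := hj.2
          rcases hLj : L j with _ | ⟨k'', L''⟩
          · rw [hLj] at hj; simp at hj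
          · have h3 := hsort j
            rw [hLj, List.pairwise_cons] at h3
            rw [hLj] at hj
            have h4 : k'' ≤ k + 1 := by
              rcases List.mem_cons.mp hj with h5 | h5
              · omega
              · exact (h3.1 _ h5).le
            have h6 := hcasc j
            rw [hLj] at h6
            obtain ⟨a2, c2, g1, g2, g3, g4⟩ := h6.cons_inv
            have g5 := g1.le hβ hθ
            have g6 := g2.le hβ hθ
            calc θ (k + 1) ≤ θ k'' := hanti h4
              _ ≤ β * (c2 - a2) := g4
              _ ≤ β * (hi j - lo j) := by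
                apply mul_le_mul_of_nonneg_left _ hβ.le
                linarith
        have hcard : (M : ℝ) - 1 ≤ ((S.erase i).card : ℝ) := by
          have := Finset.pred_card_le_card_erase (s := S) (a := i)
          have h7 : M ≤ (S.erase i).card + 1 := by omega
          have h8 : (M : ℝ) ≤ (S.erase i).card + 1 := by exact_mod_cast h7
          linarith
        have h9 : β * θ k ≤ β * ∑ j ∈ univ.erase i, (hi j - lo j) := by
          calc β * θ k ≤ ((M : ℝ) - 1) * θ (k + 1) := hM k
            _ ≤ ((S.erase i).card : ℝ) * θ (k + 1) :=
                mul_le_mul_of_nonneg_right hcard (hθ _).le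
            _ = ∑ _j ∈ S.erase i, θ (k + 1) := by rw [Finset.sum_const, nsmul_eq_mul]
            _ ≤ ∑ j ∈ S.erase i, β * (hi j - lo j) :=
                Finset.sum_le_sum (fun j hj => hlenj j (Finset.mem_of_mem_erase hj))
            _ ≤ ∑ j ∈ univ.erase i, β * (hi j - lo j) := by
                apply Finset.sum_le_sum_of_subset_of_nonneg
                · exact Finset.erase_subset_erase _ (Finset.subset_univ _)
                · intro j _ _
                  apply mul_nonneg hβ.le
                  linarith [hlen_nonneg j]
            _ = β * ∑ j ∈ univ.erase i, (hi j - lo j) := by rw [Finset.mul_sum]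
        have h10 := le_of_mul_le_mul_left h9 hβ
        linarith
    -- the update step
    have hstep : ∀ lo₁ hi₁ : ℝ, Casc (P i) θ β L' lo₁ hi₁ →
        (lo₁ + ∑ j ∈ univ.erase i, lo j ≤ y) → (y ≤ hi₁ + ∑ j ∈ univ.erase i, hi j + ε) →
        ∃ x : ι → ℝ, (∀ i, P i (x i)) ∧ ∑ i, x i ≤ y ∧ y ≤ ∑ i, x i + ε := by
      intro lo₁ hi₁ hcas h1 h2
      apply ih (Function.update L i L') (Function.update lo i lo₁) (Function.update hi i hi₁)
      · have e1 : ∑ j, (Function.update L i L' j).length =
            L'.length + ∑ j ∈ univ.erase i, (L j).length := by
          rw [← Finset.add_sum_erase univ _ (mem_univ i)]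
          rw [Function.update_self]
          congr 1
          apply Finset.sum_congr rfl
          intro j hj
          rw [Function.update_of_ne (Finset.ne_of_mem_erase hj)]
        have e2 : ∑ j, (L j).length = (L i).length + ∑ j ∈ univ.erase i, (L j).length :=
          (Finset.add_sum_erase univ _ (mem_univ i)).symm
        rw [hL', List.length_cons] at e2
        omega
      · intro j
        by_cases hj : j = i
        · subst hj; rw [Function.update_self]; exact hsortL'
        · rw [Function.update_of_ne hj]; exact hsort j
      · intro j
        by_cases hj : j = i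
        · subst hj
          rw [Function.update_self, Function.update_self, Function.update_self]; exact hcas
        · rw [Function.update_of_ne hj, Function.update_of_ne hj, Function.update_of_ne hj]
          exact hcasc j
      · intro t ht
        obtain ⟨j, hj⟩ := ht
        have htold : ∃ j, t ∈ L j := by
          by_cases hji : j = i
          · subst hji
            rw [Function.update_self] at hj
            exact ⟨j, by rw [hL']; exact List.mem_cons_of_mem _ hj⟩
          · rw [Function.update_of_ne hji] at hj
            exact ⟨j, hj⟩
        have hkt : k ≤ t := by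
          obtain ⟨j', hj'⟩ := htold
          exact hkmin t j' hj'
        rcases hcov t htold with h | h
        · exact Or.inl h
        · right
          refine h.trans (Finset.card_le_card ?_)
          intro j'
          simp only [Finset.mem_filter, mem_univ, true_and]
          intro hj'
          by_cases hji : j' = i
          · subst hji
            rw [Function.update_self]
            rw [hL'] at hj'
            rcases List.mem_cons.mp hj' with h5 | h5
            · omega
            · exact h5
          · rw [Function.update_of_ne hji]
            exact hj'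
      · rw [← Finset.add_sum_erase univ _ (mem_univ i)]
        rw [Function.update_self]
        have : ∑ j ∈ univ.erase i, Function.update lo i lo₁ j = ∑ j ∈ univ.erase i, lo j := by
          apply Finset.sum_congr rfl
          intro j hj
          rw [Function.update_of_ne (Finset.ne_of_mem_erase hj)]
        rw [this]
        exact h1
      · rw [← Finset.add_sum_erase univ _ (mem_univ i)]
        rw [Function.update_self]
        have : ∑ j ∈ univ.erase i, Function.update hi i hi₁ j = ∑ j ∈ univ.erase i, hi j := by
          apply Finset.sum_congr rfl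
          intro j hj
          rw [Function.update_of_ne (Finset.ne_of_mem_erase hj)]
        rw [this]
        exact h2
    rw [← Finset.add_sum_erase univ _ (mem_univ i)] at hlo hhi
    rw [Finset.sum_sub_distrib] at hdom
    by_cases hcase : y ≤ a' + ∑ j ∈ univ.erase i, hi j + ε
    · exact hstep (lo i) a' hA hlo hcase
    · push Not at hcase
      exact hstep c' (hi i) hC (by linarith) hhi

end Pool.Agent.W21.HN
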