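import Pool.Agent.W21.HN.Casc

set_option autoImplicit false

namespace Pool.Agent.W21.HN

open Finset

/-- level list `L` is realised by the finite set `T` (base `b`). -/
def Real' (b : ℕ) (T : Finset ℝ) (L : List ℕ) : Prop :=
  ∃ lo hi, Casc (fun x => x ∈ T) (fun k => ((b : ℝ) ^ k)⁻¹) ((b : ℝ) ^ 2) L lo hi

theorem Real'.mono {b : ℕ} {T T' : Finset ℝ} (h : T ⊆ T') {L : List ℕ} (hL : Real' b T L) :
    Real' b T' L := by
  obtain ⟨lo, hi, hc⟩ := hL
  exact ⟨lo, hi, hc.mono (fun x hx => h hx)⟩

open Classical in
/-- indicator of realisability -/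
noncomputable def ind (b : ℕ) (T : Finset ℝ) (L : List ℕ) : ℝ := if Real' b T L then 1 else 0

theorem ind_nonneg (b : ℕ) (T : Finset ℝ) (L : List ℕ) : 0 ≤ ind b T L := by
  unfold ind; split_ifs <;> norm_num

theorem ind_le_one (b : ℕ) (T : Finset ℝ) (L : List ℕ) : ind b T L ≤ 1 := by
  unfold ind; split_ifs <;> norm_num

theorem shatter_aux (b : ℕ) (hb : 2 ≤ b) (n : ℕ) : ∀ (k : ℕ) (T : Finset ℝ) (u : ℝ),
    (∀ x ∈ T, u ≤ x ∧ x < u + ((b : ℝ) ^ k)⁻¹) →
    (∀ x ∈ T, ∀ y ∈ T, x < y → x + ((b : ℝ) ^ (k + n))⁻¹ ≤ y) →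
    (1 - 1 / (b : ℝ)) ^ n * (T.card : ℝ) ≤ Wt b n k (ind b T) := by
  have hb0 : (0 : ℝ) < b := by positivity
  have hb1 : (1 : ℝ) ≤ b := by exact_mod_cast (by omega : 1 ≤ b)
  induction n with
  | zero =>
    intro k T u hT hsep
    simp only [Wt, pow_zero, one_mul]
    have hcard : T.card ≤ 1 := by
      rw [Finset.card_le_one]
      intro x hx y hy
      by_contra hne
      rcases lt_or_gt_of_ne hne with h | h
      · have h1 := hsep x hx y hy h
        have h2 := hT x hx
        have h3 := hT y hy
        simp only [add_zero] at h1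
        linarith
      · have h1 := hsep y hy x hx h
        have h2 := hT x hx
        have h3 := hT y hy
        simp only [add_zero] at h1
        linarith
    rcases T.eq_empty_or_nonempty with h | ⟨x, hx⟩
    · subst h
      simpa using ind_nonneg b ∅ []
    · have : ind b T [] = 1 := by
        unfold ind
        rw [if_pos]
        exact ⟨x, x, Casc.leaf x hx⟩
      rw [this]
      exact_mod_cast hcard
  | succ n ih =>
    intro k T u hT hsep
    classical
    set δ : ℝ := ((b : ℝ) ^ (k + 2))⁻¹ with hδ
    have hδ0 : 0 < δ := by positivity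
    have hbδ : (b : ℝ) * δ = ((b : ℝ) ^ (k + 1))⁻¹ := by
      rw [hδ]; field_simp; ring
    have hb2δ : (b : ℝ) ^ 2 * δ = ((b : ℝ) ^ k)⁻¹ := by
      rw [hδ]; field_simp; ring
    set q : ℝ → ℕ := fun x => ⌊(x - u) / δ⌋₊ with hq
    have hqlt : ∀ x ∈ T, q x < b ^ 2 := by
      intro x hx
      rw [hq]
      simp only
      rw [Nat.floor_lt' (by positivity)]
      rw [div_lt_iff₀ hδ0]
      have := (hT x hx).2
      push_cast
      linarith
    have hq1 : ∀ x ∈ T, u + (q x : ℝ) * δ ≤ x := by
      intro x hx
      have h0 : 0 ≤ (x - u) / δ := div_nonneg (by linarith [(hT x hx).1]) hδ0.le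
      have := Nat.floor_le h0
      rw [le_div_iff₀ hδ0] at this
      linarith
    have hq2 : ∀ x ∈ T, x < u + ((q x : ℝ) + 1) * δ := by
      intro x hx
      have := Nat.lt_floor_add_one ((x - u) / δ)
      rw [div_lt_iff₀ hδ0] at this
      linarith
    -- the residue class to remove
    obtain ⟨a, ha, hacard⟩ : ∃ a ∈ Finset.range b,
        (b : ℝ) * ((T.filter (fun x => q x % b = a)).card : ℝ) ≤ T.card := by
      by_contra hcon
      push Not at hcon
      have h1 : ∑ a ∈ Finset.range b, ((T.filter (fun x => q x % b = a)).card) = T.card := by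
        rw [← Finset.card_eq_sum_card_fiberwise]
        intro x hx
        simp only [Finset.coe_range, Set.mem_Iio]
        exact Nat.mod_lt _ (by omega)
      have h2 : ∑ a ∈ Finset.range b, (T.card : ℝ) <
          ∑ a ∈ Finset.range b, (b : ℝ) * ((T.filter (fun x => q x % b = a)).card : ℝ) := by
        apply Finset.sum_lt_sum_of_nonempty
        · exact ⟨0, by simp; omega⟩
        · intro a ha
          exact hcon a ha
      rw [← Finset.mul_sum, Finset.sum_const, Finset.card_range, nsmul_eq_mul] at h2
      have h3 : (∑ a ∈ Finset.range b, ((T.filter (fun x => q x % b = a)).card : ℝ)) = T.card := by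
        exact_mod_cast h1
      rw [h3] at h2
      exact lt_irrefl _ h2
    rw [Finset.mem_range] at ha
    set ci : ℝ → ℕ := fun x => q x / b + (if q x % b < a then 0 else 1) with hci
    set Tc : ℕ → Finset ℝ := fun c => T.filter (fun x => q x % b ≠ a ∧ ci x = c) with hTc
    have hTcsub : ∀ c, Tc c ⊆ T := fun c => Finset.filter_subset _ _
    -- facts about the children
    have hci1 : ∀ x ∈ T, q x % b ≠ a →
        b * ci x + a + 1 ≤ q x + b ∧ q x + 1 ≤ b * ci x + a ∧ ci x ≤ b := by
      intro x hx hne
      have h1 : b * (q x / b) + q x % b = q x := Nat.div_add_mod _ _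
      have h2 : q x % b < b := Nat.mod_lt _ (by omega)
      have h3 : q x / b < b := by
        rw [Nat.div_lt_iff_lt_mul (by omega)]
        have := hqlt x hx
        nlinarith
      simp only [hci]
      split_ifs with h
      · refine ⟨?_, ?_, ?_⟩
        · rw [add_zero]; omega
        · rw [add_zero]; omega
        · omega
      · have h4 : a < q x % b := by omega
        refine ⟨?_, ?_, ?_⟩
        · rw [mul_add, mul_one]; omega
        · rw [mul_add, mul_one]; omega
        · omega
    have hchild : ∀ c, ∀ x ∈ Tc c, b * c + a + 1 ≤ q x + b ∧ q x + 1 ≤ b * c + a := by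
      intro c x hx
      rw [hTc, Finset.mem_filter] at hx
      obtain ⟨hxT, hne, rfl⟩ := hx
      exact ⟨(hci1 x hxT hne).1, (hci1 x hxT hne).2.1⟩
    have hIH : ∀ c, (1 - 1 / (b : ℝ)) ^ n * ((Tc c).card : ℝ) ≤ Wt b n (k + 1) (ind b (Tc c)) := by
      intro c
      apply ih (k + 1) (Tc c) (u + ((b : ℝ) * c + a + 1 - b) * δ)
      · intro x hx
        obtain ⟨h1, h2⟩ := hchild c x hx
        have h3 := hq1 x (hTcsub c hx)
        have h4 := hq2 x (hTcsub c hx)
        have h5 : (b : ℝ) * c + a + 1 ≤ q x + b := by exact_mod_cast h1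
        have h6 : (q x : ℝ) + 1 ≤ b * c + a := by exact_mod_cast h2
        constructor
        · have : ((b : ℝ) * c + a + 1 - b) * δ ≤ (q x : ℝ) * δ := by
            apply mul_le_mul_of_nonneg_right _ hδ0.le
            linarith
          linarith
        · have : ((q x : ℝ) + 1) * δ ≤ (b * c + a) * δ := by
            apply mul_le_mul_of_nonneg_right _ hδ0.le
            linarith
          rw [← hbδ]
          nlinarith
      · intro x hx y hy hxy
        have := hsep x (hTcsub c hx) y (hTcsub c hy) hxy
        rw [show k + 1 + n = k + (n + 1) by ring]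
        exact this
    -- the key inequality for indicators
    have hkey : ∀ L : List ℕ, ∑ c ∈ Finset.range (b + 1), ind b (Tc c) L ≤
        ind b T L + b * ind b T (k :: L) := by
      intro L
      by_cases h1 : ∃ c ∈ Finset.range (b + 1), Real' b (Tc c) L
      · obtain ⟨c, hc, hcL⟩ := h1
        have hTL : ind b T L = 1 := by
          unfold ind; rw [if_pos (hcL.mono (hTcsub c))]
        by_cases h2 : ∃ c' ∈ Finset.range (b + 1), c' ≠ c ∧ Real' b (Tc c') L
        · obtain ⟨c', hc', hne, hc'L⟩ := h2
          have hcase : ∀ c₁ c₂ : ℕ, c₁ < c₂ → Real' b (Tc c₁) L → Real' b (Tc c₂) L →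
              Real' b T (k :: L) := by
            intro c₁ c₂ hlt hr1 hr2
            obtain ⟨a₁, a₂, hA⟩ := hr1
            obtain ⟨a₃, a₄, hB⟩ := hr2
            have m1 := hA.mem_left
            have m2 := hA.mem_right
            have m3 := hB.mem_left
            have m4 := hB.mem_right
            refine ⟨a₁, a₄, Casc.node k L a₁ a₂ a₃ a₄ (hA.mono (fun x hx => hTcsub _ hx))
              (hB.mono (fun x hx => hTcsub _ hx)) ?_ ?_⟩
            · have e1 := hT a₁ (hTcsub _ m1)
              have e2 := hT a₄ (hTcsub _ m4)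
              linarith
            · have e1 := hq2 a₂ (hTcsub _ m2)
              have e2 := hq1 a₃ (hTcsub _ m3)
              obtain ⟨f1, f2⟩ := hchild c₁ a₂ m2
              obtain ⟨f3, f4⟩ := hchild c₂ a₃ m3
              have f5 : q a₂ + 2 ≤ q a₃ := by
                have : b * (c₁ + 1) ≤ b * c₂ := Nat.mul_le_mul_left _ hlt
                rw [mul_add, mul_one] at this
                omega
              have f6 : (q a₂ : ℝ) + 2 ≤ q a₃ := by exact_mod_cast f5
              have f7 : ((q a₂ : ℝ) + 2) * δ ≤ (q a₃ : ℝ) * δ :=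
                mul_le_mul_of_nonneg_right f6 hδ0.le
              have f8 : δ ≤ a₃ - a₂ := by nlinarith
              rw [← hb2δ]
              exact mul_le_mul_of_nonneg_left f8 (by positivity)
          have hTkL : ind b T (k :: L) = 1 := by
            unfold ind
            rw [if_pos]
            rcases lt_or_gt_of_ne hne with h | h
            · exact hcase c' c h hc'L hcL
            · exact hcase c c' h hcL hc'L
          rw [hTL, hTkL]
          calc ∑ c ∈ Finset.range (b + 1), ind b (Tc c) L ≤ ∑ _c ∈ Finset.range (b + 1), (1 : ℝ) :=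
                Finset.sum_le_sum (fun c _ => ind_le_one _ _ _)
            _ = 1 + b * 1 := by simp; ring
        · push Not at h2
          have : ∑ c' ∈ Finset.range (b + 1), ind b (Tc c') L = ind b (Tc c) L := by
            apply Finset.sum_eq_single_of_mem c hc
            intro c' hc' hne
            unfold ind
            rw [if_neg (h2 c' hc' hne)]
          rw [this, hTL]
          have := ind_le_one b (Tc c) L
          have h3 := ind_nonneg b T (k :: L)
          have h4 : 0 ≤ (b : ℝ) * ind b T (k :: L) := by positivity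
          linarith
      · push Not at h1
        have : ∑ c ∈ Finset.range (b + 1), ind b (Tc c) L = 0 := by
          apply Finset.sum_eq_zero
          intro c hc
          unfold ind
          rw [if_neg (h1 c hc)]
        rw [this]
        have h3 := ind_nonneg b T (k :: L)
        have h4 := ind_nonneg b T L
        have h5 : 0 ≤ (b : ℝ) * ind b T (k :: L) := by positivity
        linarith
    -- count
    have hcount : (T.card : ℝ) ≤ (T.filter (fun x => q x % b = a)).card +
        ∑ c ∈ Finset.range (b + 1), ((Tc c).card : ℝ) := by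
      have h1 : (T.filter (fun x => ¬ q x % b = a)).card =
          ∑ c ∈ Finset.range (b + 1), (Tc c).card := by
        rw [Finset.card_eq_sum_card_fiberwise (f := ci) (t := Finset.range (b + 1))]
        · apply Finset.sum_congr rfl
          intro c _
          rw [Finset.filter_filter]
        · intro x hx
          rw [Finset.mem_coe, Finset.mem_filter] at hx
          rw [Finset.mem_coe, Finset.mem_range]
          have := (hci1 x hx.1 hx.2).2.2
          omega
      have h2 := Finset.card_filter_add_card_filter_not (s := T) (fun x => q x % b = a)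
      rw [h1] at h2
      have h3 : (T.card : ℝ) = (T.filter (fun x => q x % b = a)).card +
        ∑ c ∈ Finset.range (b + 1), ((Tc c).card : ℝ) := by
        exact_mod_cast h2.symm
      linarith
    have hfrac : 0 ≤ 1 - 1 / (b : ℝ) := by
      rw [sub_nonneg, div_le_one hb0]; exact hb1
    have hfin : (1 - 1 / (b : ℝ)) * T.card ≤ ∑ c ∈ Finset.range (b + 1), ((Tc c).card : ℝ) := by
      have h1 : ((T.filter (fun x => q x % b = a)).card : ℝ) ≤ T.card / b := by
        rw [le_div_iff₀ hb0]
        linarith
      have h2 : (1 - 1 / (b : ℝ)) * T.card = T.card - T.card / b := by ring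
      rw [h2]
      linarith
    calc (1 - 1 / (b : ℝ)) ^ (n + 1) * (T.card : ℝ)
        = (1 - 1 / (b : ℝ)) ^ n * ((1 - 1 / (b : ℝ)) * T.card) := by ring
      _ ≤ (1 - 1 / (b : ℝ)) ^ n * ∑ c ∈ Finset.range (b + 1), ((Tc c).card : ℝ) :=
          mul_le_mul_of_nonneg_left hfin (pow_nonneg hfrac _)
      _ = ∑ c ∈ Finset.range (b + 1), (1 - 1 / (b : ℝ)) ^ n * ((Tc c).card : ℝ) := by
          rw [Finset.mul_sum]
      _ ≤ ∑ c ∈ Finset.range (b + 1), Wt b n (k + 1) (ind b (Tc c)) :=
          Finset.sum_le_sum (fun c _ => hIH c)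
      _ = Wt b n (k + 1) (fun L => ∑ c ∈ Finset.range (b + 1), ind b (Tc c) L) := by
          rw [Wt_sum]
      _ ≤ Wt b n (k + 1) (fun L => ind b T L + b * ind b T (k :: L)) :=
          Wt_mono hb0.le n _ _ _ hkey
      _ = Wt b (n + 1) k (ind b T) := by
          rw [Wt_add, Wt_smul]
          rfl

/-- **Shattering lemma.** A set of well separated reals in an interval of length one realises
a long list of levels. -/
theorem shatter (b : ℕ) (hb : 2 ≤ b) (K : ℕ) (T : Finset ℝ) (hTne : T.Nonempty) (u : ℝ)
    (hT : ∀ x ∈ T, u ≤ x ∧ x < u + 1)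
    (hsep : ∀ x ∈ T, ∀ y ∈ T, x < y → x + ((b : ℝ) ^ K)⁻¹ ≤ y) :
    ∃ L : List ℕ, L.Sublist (List.range' 0 K) ∧ Real' b T L ∧
      (1 - 1 / (b : ℝ)) ^ K * (T.card : ℝ) ≤ (1 + K * b) ^ L.length := by
  classical
  have h0 := shatter_aux b hb K 0 T u (by simpa using hT) (by simpa using hsep)
  have hb0 : (0 : ℝ) ≤ b := by positivity
  set Pr : ℕ → Prop := fun d => ∃ L : List ℕ, L.Sublist (List.range' 0 K) ∧ Real' b T L ∧
    L.length = d with hPr
  have hP0 : Pr 0 := by
    obtain ⟨x, hx⟩ := hTne
    exact ⟨[], List.nil_sublist _, ⟨x, x, Casc.leaf x hx⟩, rfl⟩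
  set D := Nat.findGreatest Pr K with hD
  have hPD : Pr D := Nat.findGreatest_spec (P := Pr) (Nat.zero_le K) hP0
  obtain ⟨L, hL1, hL2, hL3⟩ := hPD
  refine ⟨L, hL1, hL2, ?_⟩
  rw [hL3]
  refine h0.trans (Wt_le hb0 K 0 D _ ?_ ?_)
  · intro L _; exact ind_le_one _ _ _
  · intro L' hL' hlt
    have : ¬ Real' b T L' := by
      intro hr
      have hlen : L'.length ≤ K := by
        have := hL'.length_le
        simpa using this
      have := Nat.le_findGreatest (P := Pr) hlen ⟨L', hL', hr, rfl⟩
      omega
    unfold ind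
    rw [if_neg this]

end Pool.Agent.W21.HN
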