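import Pool.Agent.W21.HN.Step

set_option autoImplicit false

namespace Pool.Agent.W21.HN

open Finset

theorem step (n l : ℕ) (N : ℕ) (hN : 0 < N) (W : Finset ℕ) (hW : ∀ p ∈ W, p.Prime ∧ p ≤ n)
    (Res D : ℕ) (hRes : Res * ∏ p ∈ W, p ∣ N)
    (hdense : ∀ z : ℝ, 1 ≤ z → z ≤ D → ∃ h : ℕ, h ∣ Res ∧ z ≤ h ∧ (h : ℝ) < 2 * z)
    (hl : 10 ≤ l) (hn2 : n < 2 ^ (l + 1)) (hn1 : 1 ≤ n) (S : ℕ) (hS : 1 ≤ S) (hSl : S ≤ l)
    (hWc : 2 * l ^ 4 * 2 ^ (S - 1) ≤ W.card) (hrl : 1 + 2 * 2 ^ (S - 1) * l ^ 2 ≤ 2 ^ l)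
    (m : ℕ) (hm : 0 < m) (hm1 : m * n ^ (2 ^ (S - 1)) ≤ N)
    (hm2 : N * (2 * l) ^ ((2 ^ S + 1) * l) ≤ m * D) :
    ∃ m', Sub N (100 * l ^ 7) m m' ∧ m' * (2 * l) ^ (2 ^ S * l) ≤ m := by
  classical
  have hResN : Res ∣ N := dvd_trans (dvd_mul_right _ _) hRes
  have hRes0 : 0 < Res := Nat.pos_of_dvd_of_pos hResN hN
  have hpow : ∀ s, s < S → 2 ^ s ≤ 2 ^ (S - 1) := fun s hs =>
    Nat.pow_le_pow_right (by norm_num) (by omega)
  -- real parameters
  set b : ℝ := ((2 * l : ℕ) : ℝ) with hb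
  have hlR : (10 : ℝ) ≤ l := by exact_mod_cast hl
  have hb20 : (20 : ℝ) ≤ b := by rw [hb]; push_cast; linarith
  have hb0 : (0 : ℝ) < b := by linarith
  have hb1 : (1 : ℝ) ≤ b := by linarith
  have hNR : (0 : ℝ) < N := by exact_mod_cast hN
  have hmR : (0 : ℝ) < m := by exact_mod_cast hm
  set y : ℝ := (m : ℝ) / N with hy
  have hy0 : 0 < y := by positivity
  have hmN : (m : ℝ) * (n : ℝ) ^ (2 ^ (S - 1)) ≤ N := by exact_mod_cast hm1
  have hynS : y * (n : ℝ) ^ (2 ^ (S - 1)) ≤ 1 := by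
    rw [hy, div_mul_eq_mul_div, div_le_one hNR]; exact hmN
  have hn1R : (1 : ℝ) ≤ n := by exact_mod_cast hn1
  have hy1 : y ≤ 1 := by
    have : 1 ≤ (n : ℝ) ^ (2 ^ (S - 1)) := one_le_pow₀ hn1R
    nlinarith
  set θ : ℕ → ℝ := fun t => y * (b ^ t)⁻¹ with hθ
  have hθ0 : ∀ t, 0 < θ t := fun t => by rw [hθ]; positivity
  have hθanti : Antitone θ := by
    intro s t hst
    rw [hθ]
    simp only
    apply mul_le_mul_of_nonneg_left _ hy0.le
    apply inv_anti₀ (by positivity)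
    exact pow_le_pow_right₀ hb1 hst
  have hθadd : ∀ k w, θ (k + w) = θ w * (b ^ k)⁻¹ := by
    intro k w
    rw [hθ]
    simp only
    rw [pow_add, mul_inv]
    ring
  have hθl : ∀ t, θ t ≤ y := by
    intro t
    rw [hθ]
    simp only
    have : (b ^ t)⁻¹ ≤ 1 := inv_le_one_of_one_le₀ (one_le_pow₀ hb1)
    nlinarith
  -- the types
  have htypes : ∀ s, s < S → ∃ (j : ℕ) (L : List ℕ) (lo hi : ℝ), 2 ^ j ≤ n ^ (2 ^ s) ∧
      L.Sublist (List.range' 0 (2 ^ s * l)) ∧ 2 ^ s ≤ l * L.length ∧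
      Casc (fun x => ∃ t : ℕ, t ∣ ∏ p ∈ W, p ∧ 2 ^ j ≤ t ∧ x = 2 ^ j / (t : ℝ))
        (fun k => (((2 * l : ℕ) : ℝ) ^ k)⁻¹) (((2 * l : ℕ) : ℝ) ^ 2) L lo hi := by
    intro s hs
    apply types n l (2 ^ s) W hW (by omega) hn2 Nat.one_le_two_pow
    · exact le_trans (Nat.mul_le_mul_left _ (hpow s hs)) hWc
    · refine le_trans ?_ hrl
      have := Nat.mul_le_mul_right (l ^ 2) (Nat.mul_le_mul_left 2 (hpow s hs))
      omega
  choose! j L lo hi ht1 ht2 ht3 ht4 using htypes
  have hshifts : ∀ s, s < S → ∃ H : Finset ℕ, H ⊆ Finset.Ico l (l + 2 * (2 ^ s * l)) ∧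
      H.card ≤ 2 * l ^ 2 * l ∧
      ∀ t, 2 ^ s * l + l ≤ t → t < 2 * (2 ^ s * l) + l → ∃ w ∈ H, ∃ k ∈ L s, k + w = t := by
    intro s hs
    apply shifts l (2 ^ s) (L s) (by omega) Nat.one_le_two_pow (ht2 s hs) (ht3 s hs)
    have h1 := Nat.mul_le_mul_right (l ^ 2) (Nat.mul_le_mul_left 2 (hpow s hs))
    have h2 : 2 ^ s * l ≤ 2 * 2 ^ s * l ^ 2 := by
      calc 2 ^ s * l = 1 * 2 ^ s * (l * 1) := by ring
        _ ≤ 2 * 2 ^ s * (l * l) := by
          apply Nat.mul_le_mul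
          · omega
          · apply Nat.mul_le_mul_left; omega
        _ = _ := by ring
    omega
  choose! H hH1 hH2 hH3 using hshifts
  -- index type
  set M : ℕ := 2 * (2 * l) ^ 3 + 1 with hM
  set 𝒩 : Finset (Σ _ : ℕ, ℕ) := (Finset.range S).sigma H with h𝒩
  have hmem𝒩 : ∀ x ∈ 𝒩, x.1 < S ∧ x.2 ∈ H x.1 := by
    intro x hx
    rw [h𝒩, Finset.mem_sigma, Finset.mem_range] at hx
    exact hx
  let ι := ↥𝒩 × Fin M
  have hsS : ∀ i : ι, i.1.1.1 < S := fun i => (hmem𝒩 _ i.1.2).1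
  have hwH : ∀ i : ι, i.1.1.2 ∈ H i.1.1.1 := fun i => (hmem𝒩 _ i.1.2).2
  have hwl : ∀ i : ι, l ≤ i.1.1.2 ∧ i.1.1.2 < l + 2 * (2 ^ i.1.1.1 * l) := by
    intro i
    have := hH1 _ (hsS i) (hwH i)
    rwa [Finset.mem_Ico] at this
  have hwT : ∀ i : ι, i.1.1.2 ≤ (2 ^ S + 1) * l := by
    intro i
    have h1 := (hwl i).2
    have h2 : 2 * (2 ^ i.1.1.1 * l) ≤ 2 ^ S * l := by
      have h3 : 2 * 2 ^ i.1.1.1 ≤ 2 ^ S := by
        rw [← pow_succ']
        exact Nat.pow_le_pow_right (by norm_num) (hsS i)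
      calc 2 * (2 ^ i.1.1.1 * l) = (2 * 2 ^ i.1.1.1) * l := by ring
        _ ≤ _ := Nat.mul_le_mul_right _ h3
    have h3 : (2 ^ S + 1) * l = 2 ^ S * l + l := by ring
    omega
  -- cardinality of the index type
  have hcard𝒩 : 𝒩.card ≤ l * (2 * l ^ 2 * l) := by
    rw [h𝒩, Finset.card_sigma]
    calc ∑ s ∈ Finset.range S, (H s).card ≤ ∑ _s ∈ Finset.range S, 2 * l ^ 2 * l :=
          Finset.sum_le_sum (fun s hs => hH2 s (Finset.mem_range.mp hs))
      _ = S * (2 * l ^ 2 * l) := by rw [Finset.sum_const, Finset.card_range, smul_eq_mul]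
      _ ≤ _ := Nat.mul_le_mul_right _ hSl
  have hcardι : Fintype.card ι ≤ 34 * l ^ 7 := by
    rw [Fintype.card_prod, Fintype.card_coe, Fintype.card_fin]
    calc 𝒩.card * M ≤ (l * (2 * l ^ 2 * l)) * M := Nat.mul_le_mul_right _ hcard𝒩
      _ = 2 * l ^ 4 * (16 * l ^ 3 + 1) := by rw [hM]; ring
      _ ≤ 2 * l ^ 4 * (17 * l ^ 3) := by
          apply Nat.mul_le_mul_left
          have : 1 ≤ l ^ 3 := Nat.one_le_pow _ _ (by omega)
          omega
      _ = 34 * l ^ 7 := by ring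
  -- scales
  have hm2R : (N : ℝ) * b ^ ((2 ^ S + 1) * l) ≤ m * D := by
    rw [hb]; exact_mod_cast hm2
  have hyD : ∀ t, t ≤ (2 ^ S + 1) * l → b ^ t / y ≤ D := by
    intro t ht
    rw [hy, div_div_eq_mul_div, div_le_iff₀ hmR]
    have : b ^ t ≤ b ^ ((2 ^ S + 1) * l) := pow_le_pow_right₀ hb1 ht
    calc b ^ t * N ≤ b ^ ((2 ^ S + 1) * l) * N := mul_le_mul_of_nonneg_right this hNR.le
      _ = N * b ^ ((2 ^ S + 1) * l) := by ring
      _ ≤ m * D := hm2R
      _ = D * m := by ring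
  have hscale : ∀ i : ι, ∃ h : ℕ, h ∣ Res ∧ b ^ i.1.1.2 / (y * 2 ^ j i.1.1.1) ≤ h ∧
      (h : ℝ) < 2 * (b ^ i.1.1.2 / (y * 2 ^ j i.1.1.1)) := by
    intro i
    apply hdense
    · rw [le_div_iff₀ (by positivity), one_mul]
      have h1 : (2 : ℝ) ^ j i.1.1.1 ≤ (n : ℝ) ^ (2 ^ (S - 1)) := by
        have h2 := ht1 _ (hsS i)
        have h3 : n ^ (2 ^ i.1.1.1) ≤ n ^ (2 ^ (S - 1)) :=
          Nat.pow_le_pow_right hn1 (hpow _ (hsS i))
        exact_mod_cast h2.trans h3
      calc y * 2 ^ j i.1.1.1 ≤ y * (n : ℝ) ^ (2 ^ (S - 1)) :=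
            mul_le_mul_of_nonneg_left h1 hy0.le
        _ ≤ 1 := hynS
        _ ≤ _ := one_le_pow₀ hb1
    · refine le_trans ?_ (hyD _ (hwT i))
      apply div_le_div_of_nonneg_left (by positivity) hy0
      have : (1 : ℝ) ≤ 2 ^ j i.1.1.1 := one_le_pow₀ (by norm_num)
      nlinarith
  choose hh hh1 hh2 hh3 using hscale
  have hhpos : ∀ i, (0 : ℝ) < hh i := fun i => by
    have := Nat.pos_of_dvd_of_pos (hh1 i) hRes0
    exact_mod_cast this
  set σ : ι → ℝ := fun i => 1 / ((hh i : ℝ) * 2 ^ j i.1.1.1) with hσ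
  have hσ0 : ∀ i, 0 < σ i := fun i => by
    have := hhpos i
    rw [hσ]; positivity
  have hσle : ∀ i, σ i ≤ θ i.1.1.2 := by
    intro i
    have h0 := hhpos i
    have h1 := hh2 i
    rw [div_le_iff₀ (by positivity)] at h1
    rw [hσ, hθ]
    simp only
    rw [div_le_iff₀ (by positivity)]
    have h2 : (b ^ i.1.1.2)⁻¹ * b ^ i.1.1.2 = 1 := inv_mul_cancel₀ (by positivity)
    calc (1 : ℝ) = (b ^ i.1.1.2)⁻¹ * b ^ i.1.1.2 := h2.symm
      _ ≤ (b ^ i.1.1.2)⁻¹ * (hh i * (y * 2 ^ j i.1.1.1)) :=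
          mul_le_mul_of_nonneg_left h1 (by positivity)
      _ = _ := by ring
  have hσge : ∀ i, θ i.1.1.2 ≤ 2 * σ i := by
    intro i
    have h0 := hhpos i
    have h1 := hh3 i
    rw [← mul_div_assoc, lt_div_iff₀ (by positivity)] at h1
    rw [hσ, hθ]
    simp only
    rw [mul_one_div, le_div_iff₀ (by positivity)]
    have h2 : (b ^ i.1.1.2)⁻¹ * b ^ i.1.1.2 = 1 := inv_mul_cancel₀ (by positivity)
    calc y * (b ^ i.1.1.2)⁻¹ * ((hh i : ℝ) * 2 ^ j i.1.1.1)
        = (b ^ i.1.1.2)⁻¹ * (hh i * (y * 2 ^ j i.1.1.1)) := by ring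
      _ ≤ (b ^ i.1.1.2)⁻¹ * (2 * b ^ i.1.1.2) := mul_le_mul_of_nonneg_left h1.le (by positivity)
      _ = 2 * ((b ^ i.1.1.2)⁻¹ * b ^ i.1.1.2) := by ring
      _ = 2 := by rw [h2, mul_one]
  -- the predicate of the leaves
  set Q : ℝ → Prop := fun x => ∃ c : ℕ, c ∣ N ∧ x = 1 / (c : ℝ) ∧ x ≤ θ l with hQ
  have hcasc : ∀ i : ι, ∃ a₁ c₁ : ℝ,
      Casc Q θ (2 * b ^ 2) (((L i.1.1.1).map (· + i.1.1.2)).filter (fun t => decide (2 * l ≤ t)))
        a₁ c₁ := by
    intro i
    have h1 := ht4 _ (hsS i)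
    have h2 : Casc Q θ (2 * b ^ 2) ((L i.1.1.1).map (· + i.1.1.2)) (σ i * lo i.1.1.1)
        (σ i * hi i.1.1.1) := by
      refine Casc.scale (hσ0 i) ?_ ?_ ?_ h1
      · rintro x ⟨t, ht, ht', rfl⟩
        have htpos : (0 : ℝ) < t := by
          have : 0 < 2 ^ j i.1.1.1 := by positivity
          exact_mod_cast lt_of_lt_of_le this ht'
        have h0 := hhpos i
        refine ⟨hh i * t, ?_, ?_, ?_⟩
        · exact dvd_trans (mul_dvd_mul (hh1 i) ht) hRes
        · rw [hσ]; push_cast; field_simp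
        · have h3 : (2 : ℝ) ^ j i.1.1.1 / t ≤ 1 := by
            rw [div_le_one htpos]; exact_mod_cast ht'
          calc σ i * (2 ^ j i.1.1.1 / t) ≤ σ i * 1 := mul_le_mul_of_nonneg_left h3 (hσ0 i).le
            _ = σ i := mul_one _
            _ ≤ θ i.1.1.2 := hσle i
            _ ≤ θ l := hθanti (hwl i).1
      · intro k
        rw [hθadd]
        exact mul_le_mul_of_nonneg_right (hσle i) (by positivity)
      · intro k x hx
        rw [hθadd]
        calc θ i.1.1.2 * (b ^ k)⁻¹ ≤ 2 * σ i * (b ^ k)⁻¹ :=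
              mul_le_mul_of_nonneg_right (hσge i) (by positivity)
          _ ≤ 2 * σ i * (b ^ 2 * x) := by
              apply mul_le_mul_of_nonneg_left hx
              have := hσ0 i
              positivity
          _ = 2 * b ^ 2 * (σ i * x) := by ring
    obtain ⟨a₁, c₁, _, _, h3⟩ := h2.filter (by positivity) hθ0 (fun t => decide (2 * l ≤ t))
    exact ⟨a₁, c₁, h3⟩
  choose lo' hi' hcasc' using hcasc
  have hβ0 : 0 < 2 * b ^ 2 := by positivity
  have hlohi : ∀ i, lo' i ≤ hi' i := fun i => (hcasc' i).le hβ0 hθ0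
  -- sums of the minimal leaves
  have hsumlo : ∑ i : ι, lo' i ≤ y / 2 := by
    have h1 : ∀ i : ι, lo' i ≤ θ l := by
      intro i
      obtain ⟨c, _, _, h⟩ := (hcasc' i).mem_left
      exact h
    calc ∑ i : ι, lo' i ≤ ∑ _i : ι, θ l := Finset.sum_le_sum (fun i _ => h1 i)
      _ = (Fintype.card ι : ℝ) * θ l := by rw [Finset.sum_const, nsmul_eq_mul, Finset.card_univ]
      _ ≤ (34 * l ^ 7 : ℕ) * θ l := by
          apply mul_le_mul_of_nonneg_right _ (hθ0 l).le
          exact_mod_cast hcardι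
      _ ≤ y / 2 := by
          rw [hθ]
          simp only
          have h2 : (68 * (l : ℝ) ^ 7) ≤ b ^ l := by
            calc 68 * (l : ℝ) ^ 7 ≤ 128 * (l : ℝ) ^ 7 := by
                  have : (0 : ℝ) ≤ (l : ℝ) ^ 7 := by positivity
                  linarith
              _ = b ^ 7 := by rw [hb]; push_cast; ring
              _ ≤ b ^ l := pow_le_pow_right₀ hb1 (by omega)
          have h3 : (68 * (l : ℝ) ^ 7) * (b ^ l)⁻¹ ≤ 1 := by
            rw [← div_eq_mul_inv, div_le_one (by positivity)]; exact h2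
          push_cast
          nlinarith
  have hlopos : ∀ i, 0 ≤ lo' i := by
    intro i
    obtain ⟨c, _, hc, _⟩ := (hcasc' i).mem_left
    rw [hc]; positivity
  have hsumlo0 : 0 ≤ ∑ i : ι, lo' i := Finset.sum_nonneg (fun i _ => hlopos i)
  -- the halving steps
  obtain ⟨M0, hM01, hM02, hM03, hM04⟩ := halving Res D hRes0 hdense (θ (2 * l)) (hθ0 _) (by
      have := hyD (2 * l) (by
        have : 2 ≤ 2 ^ S + 1 := by
          have := Nat.one_le_two_pow (n := S)
          omega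
        exact Nat.mul_le_mul_right _ this)
      rw [hθ]
      simp only
      rw [one_div, mul_inv, inv_inv]
      calc y⁻¹ * b ^ (2 * l) = b ^ (2 * l) / y := by rw [div_eq_mul_inv]; ring
        _ ≤ D := this) (2 * l ^ 2) (y - ∑ i : ι, lo' i) (by linarith) (by linarith)
  set Sg : ℝ := (M0.map (fun h : ℕ => 1 / (h : ℝ))).sum with hSg
  have hrho : y - Sg - ∑ i : ι, lo' i ≤ θ (2 * l) := by
    rcases hM04 with h | h
    · linarith
    · have h1 : (y - ∑ i : ι, lo' i) / 2 ^ (2 * l ^ 2) ≤ θ (2 * l) := by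
        have h2 : b ^ (2 * l) ≤ 2 ^ (2 * l ^ 2) := by
          have h3 : b ≤ 2 ^ l := by
            rw [hb]
            have : 2 * l ≤ 2 ^ l := by
              have := hrl
              have h5 : 1 ≤ 2 ^ (S - 1) := Nat.one_le_two_pow
              nlinarith
            exact_mod_cast this
          calc b ^ (2 * l) ≤ (2 ^ l) ^ (2 * l) := pow_le_pow_left₀ hb0.le h3 _
            _ = 2 ^ (2 * l ^ 2) := by rw [← pow_mul]; ring_nf
        rw [hθ]
        simp only
        rw [div_le_iff₀ (by positivity)]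
        calc y - ∑ i : ι, lo' i ≤ y := by linarith
          _ = y * ((b ^ (2 * l))⁻¹ * b ^ (2 * l)) := by
              rw [inv_mul_cancel₀ (by positivity), mul_one]
          _ ≤ y * ((b ^ (2 * l))⁻¹ * 2 ^ (2 * l ^ 2)) := by
              apply mul_le_mul_of_nonneg_left _ hy0.le
              exact mul_le_mul_of_nonneg_left h2 (by positivity)
          _ = _ := by ring
      linarith
  -- coverage
  set L' : ι → List ℕ := fun i =>
    ((L i.1.1.1).map (· + i.1.1.2)).filter (fun t => decide (2 * l ≤ t)) with hL'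
  have hsort : ∀ i, (L' i).Pairwise (· < ·) := by
    intro i
    rw [hL']
    simp only
    apply List.Pairwise.filter
    rw [List.pairwise_map]
    have h1 : (L i.1.1.1).Pairwise (· < ·) :=
      List.Pairwise.sublist (ht2 _ (hsS i)) (List.pairwise_lt_range' (s := 0) (n := 2 ^ i.1.1.1 * l))
    exact h1.imp (fun h => by omega)
  have hcover : ∀ t, 2 * l ≤ t → t < (2 ^ S + 1) * l →
      M ≤ (univ.filter (fun i : ι => t ∈ L' i)).card := by
    intro t ht1' ht2'
    -- find s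
    have hex : ∃ s, t < 2 * (2 ^ s * l) + l := by
      refine ⟨S, ?_⟩
      have : (2 ^ S + 1) * l = 2 ^ S * l + l := by ring
      omega
    set s := Nat.find hex with hs
    have hs1 : t < 2 * (2 ^ s * l) + l := Nat.find_spec hex
    have hs2 : 2 ^ s * l + l ≤ t := by
      rcases Nat.eq_zero_or_pos s with h0 | h0
      · rw [h0]; omega
      · have := Nat.find_min hex (m := s - 1) (by omega)
        push Not at this
        obtain ⟨s', hs'⟩ : ∃ s', s = s' + 1 := ⟨s - 1, by omega⟩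
        rw [hs'] at this ⊢
        simp only [Nat.add_sub_cancel] at this
        have e : 2 ^ (s' + 1) * l = 2 * (2 ^ s' * l) := by ring
        omega
    have hsS' : s < S := by
      by_contra hc
      push Not at hc
      have h1 : 2 ^ S ≤ 2 ^ s := Nat.pow_le_pow_right (by norm_num) hc
      have h2 : 2 ^ S * l ≤ 2 ^ s * l := Nat.mul_le_mul_right _ h1
      have : (2 ^ S + 1) * l = 2 ^ S * l + l := by ring
      omega
    obtain ⟨w, hw, k, hk, hkw⟩ := hH3 s hsS' t hs2 hs1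
    have hmem : (⟨s, w⟩ : Σ _ : ℕ, ℕ) ∈ 𝒩 := by
      rw [h𝒩, Finset.mem_sigma, Finset.mem_range]
      exact ⟨hsS', hw⟩
    have h1 : (univ.image (fun c : Fin M => ((⟨⟨s, w⟩, hmem⟩, c) : ι))) ⊆
        univ.filter (fun i : ι => t ∈ L' i) := by
      intro i hi
      rw [Finset.mem_image] at hi
      obtain ⟨c, _, rfl⟩ := hi
      rw [Finset.mem_filter]
      refine ⟨mem_univ _, ?_⟩
      rw [hL']
      simp only
      rw [List.mem_filter, List.mem_map]
      exact ⟨⟨k, hk, hkw⟩, by simpa using ht1'⟩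
    have h2 := Finset.card_le_card h1
    rw [Finset.card_image_of_injective] at h2
    · simpa using h2
    · intro c c' h
      simpa using h
  -- apply the refinement lemma
  set ε : ℝ := θ ((2 ^ S + 1) * l - 1) with hε
  have hε0 : 0 < ε := hθ0 _
  have h2lT : 2 * l < (2 ^ S + 1) * l := by
    have h1 : 2 ≤ 2 ^ S := by
      calc 2 = 2 ^ 1 := by norm_num
        _ ≤ 2 ^ S := Nat.pow_le_pow_right (by norm_num) hS
    nlinarith
  have hstart : θ (2 * l) ≤ ∑ i : ι, (hi' i - lo' i) := by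
    set A := univ.filter (fun i : ι => 2 * l ∈ L' i) with hA
    have hAM : M ≤ A.card := hcover (2 * l) le_rfl h2lT
    have hlen : ∀ i ∈ A, θ (2 * l) ≤ 2 * b ^ 2 * (hi' i - lo' i) := by
      intro i hiA
      rw [hA, Finset.mem_filter] at hiA
      have hmem := hiA.2
      have hc := hcasc' i
      have hso := hsort i
      have hge : ∀ t ∈ L' i, 2 * l ≤ t := by
        intro t ht
        rw [hL'] at ht
        simp only at ht
        rw [List.mem_filter] at ht
        simpa using ht.2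
      change Casc Q θ (2 * b ^ 2) (L' i) (lo' i) (hi' i) at hc
      rcases hLi : L' i with _ | ⟨k', L''⟩
      · rw [hLi] at hmem; simp at hmem
      · rw [hLi] at hc hmem hso
        have hk' : k' = 2 * l := by
          have e1 : 2 * l ≤ k' := hge k' (by rw [hLi]; simp)
          rw [List.pairwise_cons] at hso
          rcases List.mem_cons.mp hmem with h | h
          · omega
          · have := hso.1 _ h
            omega
        obtain ⟨a2, c2, g1, g2, g3, g4⟩ := hc.cons_inv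
        have g5 := g1.le hβ0 hθ0
        have g6 := g2.le hβ0 hθ0
        rw [hk'] at g4
        refine g4.trans ?_
        apply mul_le_mul_of_nonneg_left _ hβ0.le
        linarith
    have h1 : 2 * b ^ 2 * θ (2 * l) ≤ 2 * b ^ 2 * ∑ i : ι, (hi' i - lo' i) := by
      calc 2 * b ^ 2 * θ (2 * l) ≤ (A.card : ℝ) * θ (2 * l) := by
            apply mul_le_mul_of_nonneg_right _ (hθ0 _).le
            have : (M : ℝ) ≤ A.card := by exact_mod_cast hAM
            refine le_trans ?_ this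
            rw [hM]
            have e : ((2 * (2 * l) ^ 3 + 1 : ℕ) : ℝ) = 2 * b ^ 3 + 1 := by rw [hb]; push_cast; ring
            rw [e]
            have : b ^ 3 = b * b ^ 2 := by ring
            have hb2 : 0 ≤ b ^ 2 := by positivity
            nlinarith
        _ = ∑ _i ∈ A, θ (2 * l) := by rw [Finset.sum_const, nsmul_eq_mul]
        _ ≤ ∑ i ∈ A, 2 * b ^ 2 * (hi' i - lo' i) := Finset.sum_le_sum hlen
        _ ≤ ∑ i : ι, 2 * b ^ 2 * (hi' i - lo' i) := by
            apply Finset.sum_le_sum_of_subset_of_nonneg (Finset.subset_univ _)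
            intro i _ _
            have := hlohi i
            have : 0 ≤ hi' i - lo' i := by linarith
            positivity
        _ = _ := by rw [Finset.mul_sum]
    exact le_of_mul_le_mul_left h1 hβ0
  obtain ⟨x, hx1, hx2, hx3⟩ := refine_aux (fun _ : ι => Q) θ (2 * b ^ 2) ε M hβ0 hθ0 hθanti hε0.le
    (by
      intro t
      have e1 : ((M : ℝ) - 1) = 2 * b ^ 3 := by rw [hM, hb]; push_cast; ring
      rw [e1, add_comm t 1, hθadd 1 t] at *
      rw [pow_one]
      have : 2 * b ^ 3 * (θ t * b⁻¹) = 2 * b ^ 2 * θ t * (b * b⁻¹) := by ring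
      rw [this, mul_inv_cancel₀ hb0.ne', mul_one])
    (y - Sg) (∑ i, (L' i).length) L' lo' hi' rfl hsort hcasc' (by
      rintro t ⟨i, hi⟩
      have ht2l : 2 * l ≤ t := by
        rw [hL'] at hi
        simp only at hi
        rw [List.mem_filter] at hi
        simpa using hi.2
      by_cases h : t + 1 < (2 ^ S + 1) * l
      · right; exact hcover (t + 1) (by omega) h
      · left
        apply hθanti
        omega) (by linarith) (by
      rw [Finset.sum_sub_distrib] at hstart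
      linarith)
  choose c hc1 hc2 hc3 using hx1
  -- the multiset
  have hcpos : ∀ i, (0 : ℝ) < c i := fun i => by
    have := Nat.pos_of_dvd_of_pos (hc1 i) hN
    exact_mod_cast this
  set M1 : Multiset ℕ := (univ : Finset ι).val.map (fun i => N / c i) with hM1
  set M2 : Multiset ℕ := M0.map (fun h => N / h) with hM2
  have hM1sum : ((M1.sum : ℕ) : ℝ) = N * ∑ i, x i := by
    rw [hM1, Finset.sum_map_val, Finset.mul_sum]
    push_cast
    apply Finset.sum_congr rfl
    intro i _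
    rw [Nat.cast_div (hc1 i) (hcpos i).ne', hc2 i]
    ring
  have hM2sum : ((M2.sum : ℕ) : ℝ) = N * Sg := by
    rw [hM2, hSg]
    have : ∀ K : Multiset ℕ, (∀ h ∈ K, h ∣ Res ∧ 0 < h) →
        (((K.map (fun h => N / h)).sum : ℕ) : ℝ) = N * (K.map (fun h : ℕ => 1 / (h : ℝ))).sum := by
      intro K
      induction K using Multiset.induction_on with
      | empty => simp
      | cons a K ih =>
        intro hK
        rw [Multiset.map_cons, Multiset.sum_cons, Multiset.map_cons, Multiset.sum_cons]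
        have h1 := hK a (Multiset.mem_cons_self _ _)
        have h2 := ih (fun h hh => hK h (Multiset.mem_cons_of_mem hh))
        have h3 : (0 : ℝ) < a := by exact_mod_cast h1.2
        push_cast
        push_cast at h2
        rw [h2, Nat.cast_div (dvd_trans h1.1 hResN) h3.ne']
        ring
    exact this M0 hM02
  have hNy : (N : ℝ) * y = m := by rw [hy]; field_simp
  have htot : M1.sum + M2.sum ≤ m := by
    have : ((M1.sum + M2.sum : ℕ) : ℝ) ≤ m := by
      rw [Nat.cast_add]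
      rw [hM1sum, hM2sum, ← hNy]
      have : ∑ i, x i + Sg ≤ y := by linarith
      nlinarith
    exact_mod_cast this
  refine ⟨m - (M1.sum + M2.sum), ⟨M1 + M2, ?_, ?_, ?_⟩, ?_⟩
  · rw [Multiset.card_add, hM1, hM2, Multiset.card_map, Multiset.card_map]
    have e1 : Multiset.card (univ : Finset ι).val = Fintype.card ι := rfl
    rw [e1]
    have e2 : 2 * l ^ 2 ≤ 2 * l ^ 7 := by
      apply Nat.mul_le_mul_left
      exact Nat.pow_le_pow_right (by omega) (by norm_num)
    have e3 : 0 < l ^ 7 := by positivity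
    omega
  · intro d hd
    rcases Multiset.mem_add.mp hd with h | h
    · rw [hM1, Multiset.mem_map] at h
      obtain ⟨i, _, rfl⟩ := h
      exact Nat.div_dvd_of_dvd (hc1 i)
    · rw [hM2, Multiset.mem_map] at h
      obtain ⟨q, hq, rfl⟩ := h
      exact Nat.div_dvd_of_dvd (dvd_trans (hM02 q hq).1 hResN)
  · rw [Multiset.sum_add]; omega
  · have h1 : ((m - (M1.sum + M2.sum) : ℕ) : ℝ) ≤ N * ε := by
      rw [Nat.cast_sub htot, Nat.cast_add]
      rw [hM1sum, hM2sum, ← hNy]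
      have : y - (∑ i, x i + Sg) ≤ ε := by linarith
      nlinarith
    have h2 : (N : ℝ) * ε * b ^ (2 ^ S * l) ≤ m := by
      rw [hε, hθ]
      simp only
      have h3 : b ^ (2 ^ S * l) ≤ b ^ ((2 ^ S + 1) * l - 1) := by
        apply pow_le_pow_right₀ hb1
        have : (2 ^ S + 1) * l = 2 ^ S * l + l := by ring
        omega
      have h4 : (b ^ ((2 ^ S + 1) * l - 1))⁻¹ * b ^ (2 ^ S * l) ≤ 1 := by
        rw [inv_mul_le_iff₀ (by positivity), mul_one]; exact h3
      calc (N : ℝ) * (y * (b ^ ((2 ^ S + 1) * l - 1))⁻¹) * b ^ (2 ^ S * l)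
          = N * y * ((b ^ ((2 ^ S + 1) * l - 1))⁻¹ * b ^ (2 ^ S * l)) := by ring
        _ ≤ N * y * 1 := mul_le_mul_of_nonneg_left h4 (by positivity)
        _ = m := by rw [mul_one, hNy]
    have h3 : ((m - (M1.sum + M2.sum) : ℕ) : ℝ) * b ^ (2 ^ S * l) ≤ m :=
      le_trans (mul_le_mul_of_nonneg_right h1 (by positivity)) h2
    rw [hb] at h3
    exact_mod_cast h3

end Pool.Agent.W21.HN
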