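import Pool.Agent.W21.HN.Shatter

set_option autoImplicit false

namespace Pool.Agent.W21.HN

open Finset

theorem half_le_pow (l : ℕ) (hl : 1 ≤ l) : (1 / 2 : ℝ) ≤ (1 - 1 / ((2 * l : ℕ) : ℝ)) ^ l := by
  have h0 : (0 : ℝ) < l := by exact_mod_cast hl
  have h := one_add_mul_le_pow (a := -(1 / ((2 * l : ℕ) : ℝ))) (by
    push_cast
    have : 1 / (2 * (l : ℝ)) ≤ 1 := by
      rw [div_le_one (by positivity)]
      have : (1 : ℝ) ≤ l := by exact_mod_cast hl
      linarith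
    linarith) l
  have e : 1 + (l : ℝ) * (-(1 / ((2 * l : ℕ) : ℝ))) = 1 / 2 := by
    push_cast
    field_simp
    ring
  rw [e] at h
  calc (1 / 2 : ℝ) ≤ (1 + -(1 / ((2 * l : ℕ) : ℝ))) ^ l := h
    _ = _ := by ring

/-- existence of the cascade made of `r`-fold products of distinct primes of `W`. -/
theorem types (n l r : ℕ) (W : Finset ℕ) (hW : ∀ p ∈ W, p.Prime ∧ p ≤ n)
    (hl : 4 ≤ l) (hn2 : n < 2 ^ (l + 1)) (hr : 1 ≤ r)
    (hWc : 2 * l ^ 4 * r ≤ W.card) (hrl : 1 + 2 * r * l ^ 2 ≤ 2 ^ l) :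
    ∃ (j : ℕ) (L : List ℕ) (lo hi : ℝ), 2 ^ j ≤ n ^ r ∧ L.Sublist (List.range' 0 (r * l)) ∧
      r ≤ l * L.length ∧
      Casc (fun x => ∃ t : ℕ, t ∣ ∏ p ∈ W, p ∧ 2 ^ j ≤ t ∧ x = 2 ^ j / (t : ℝ))
        (fun k => (((2 * l : ℕ) : ℝ) ^ k)⁻¹) (((2 * l : ℕ) : ℝ) ^ 2) L lo hi := by
  classical
  set π : Finset ℕ → ℕ := fun S => ∏ p ∈ S, p with hπ
  set 𝒮 := W.powersetCard r with h𝒮
  have hprime : ∀ S ∈ 𝒮, ∀ p ∈ S, p.Prime := by
    intro S hS p hp
    rw [h𝒮, Finset.mem_powersetCard] at hS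
    exact (hW p (hS.1 hp)).1
  have hinj : ∀ S ∈ 𝒮, ∀ S' ∈ 𝒮, π S = π S' → S = S' := by
    intro S hS S' hS' h
    rw [← Nat.primeFactors_prod (hprime S hS), ← Nat.primeFactors_prod (hprime S' hS')]
    rw [hπ] at h
    simp only at h
    rw [h]
  have hpos : ∀ S ∈ 𝒮, 0 < π S := by
    intro S hS
    exact Finset.prod_pos (fun p hp => (hprime S hS p hp).pos)
  have hle : ∀ S ∈ 𝒮, π S ≤ n ^ r := by
    intro S hS
    rw [h𝒮, Finset.mem_powersetCard] at hS
    have := Finset.prod_le_pow_card S (fun p => p) n (fun p hp => (hW p (hS.1 hp)).2)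
    rw [hS.2] at this
    exact this
  have hdvd : ∀ S ∈ 𝒮, π S ∣ ∏ p ∈ W, p := by
    intro S hS
    rw [h𝒮, Finset.mem_powersetCard] at hS
    exact Finset.prod_dvd_prod_of_subset _ _ _ hS.1
  have hlog : ∀ S ∈ 𝒮, Nat.log 2 (π S) < (l + 1) * r := by
    intro S hS
    apply Nat.log_lt_of_lt_pow (hpos S hS).ne'
    calc π S ≤ n ^ r := hle S hS
      _ < (2 ^ (l + 1)) ^ r := Nat.pow_lt_pow_left hn2 (by omega)
      _ = 2 ^ ((l + 1) * r) := by rw [← pow_mul]
  -- pigeonhole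
  obtain ⟨j, hj, hfib⟩ : ∃ j ∈ Finset.range ((l + 1) * r),
      𝒮.card ≤ ((l + 1) * r) * (𝒮.filter (fun S => Nat.log 2 (π S) = j)).card := by
    by_contra hcon
    push Not at hcon
    have h1 : ∑ j ∈ Finset.range ((l + 1) * r), (𝒮.filter (fun S => Nat.log 2 (π S) = j)).card
        = 𝒮.card := by
      rw [← Finset.card_eq_sum_card_fiberwise]
      intro S hS
      simp only [Finset.coe_range, Set.mem_Iio]
      exact hlog S hS
    have h2 : ∑ j ∈ Finset.range ((l + 1) * r),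
        ((l + 1) * r) * (𝒮.filter (fun S => Nat.log 2 (π S) = j)).card <
        ∑ j ∈ Finset.range ((l + 1) * r), 𝒮.card := by
      apply Finset.sum_lt_sum_of_nonempty
      · exact ⟨0, by simp; omega⟩
      · intro a ha
        exact hcon a ha
    rw [← Finset.mul_sum, h1, Finset.sum_const, Finset.card_range, smul_eq_mul] at h2
    exact lt_irrefl _ h2
  set 𝒯 := 𝒮.filter (fun S => Nat.log 2 (π S) = j) with h𝒯
  have hT1 : ∀ S ∈ 𝒯, 2 ^ j ≤ π S ∧ π S < 2 ^ (j + 1) := by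
    intro S hS
    rw [h𝒯, Finset.mem_filter] at hS
    have h1 := Nat.pow_log_le_self 2 (hpos S hS.1).ne'
    have h2 := Nat.lt_pow_succ_log_self (b := 2) (by norm_num) (π S)
    rw [hS.2] at h1 h2
    exact ⟨h1, h2⟩
  have hTS : ∀ S ∈ 𝒯, S ∈ 𝒮 := fun S hS => (Finset.mem_filter.mp hS).1
  set f : Finset ℕ → ℝ := fun S => 2 ^ j / (π S : ℝ) with hf
  set T := 𝒯.image f with hT
  have hposR : ∀ S ∈ 𝒯, (0 : ℝ) < π S := fun S hS => by exact_mod_cast hpos S (hTS S hS)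
  have h2j : (0 : ℝ) < 2 ^ j := by positivity
  have hfinj : Set.InjOn f 𝒯 := by
    intro S hS S' hS' h
    apply hinj S (hTS S hS) S' (hTS S' hS')
    have h1 := hposR S hS
    have h2 := hposR S' hS'
    rw [hf] at h
    simp only at h
    rw [div_eq_div_iff h1.ne' h2.ne'] at h
    have h3 := mul_left_cancel₀ h2j.ne' h
    exact_mod_cast h3.symm
  have hTcard : T.card = 𝒯.card := Finset.card_image_of_injOn hfinj
  -- size of `𝒮`
  have hcard𝒮 : 𝒮.card = W.card.choose r := by rw [h𝒮, Finset.card_powersetCard]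
  have hlR : (4 : ℝ) ≤ l := by exact_mod_cast hl
  have hchoose : ((l : ℝ) ^ 4) ^ r ≤ (𝒮.card : ℝ) := by
    rw [hcard𝒮]
    have h1 := Nat.pow_le_choose (α := ℝ) r W.card
    have h2 : ((r.factorial : ℕ) : ℝ) ≤ (r : ℝ) ^ r := by exact_mod_cast Nat.factorial_le_pow r
    have h3 : (l ^ 4 * r : ℕ) ≤ W.card + 1 - r := by
      have : r ≤ l ^ 4 * r := Nat.le_mul_of_pos_left r (by positivity)
      have h5 : 2 * l ^ 4 * r = l ^ 4 * r + l ^ 4 * r := by ring
      omega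
    have h4 : ((l : ℝ) ^ 4 * r) ^ r ≤ ((W.card + 1 - r : ℕ) : ℝ) ^ r := by
      apply pow_le_pow_left₀ (by positivity)
      exact_mod_cast h3
    have hrR : (0 : ℝ) < r := by exact_mod_cast hr
    calc ((l : ℝ) ^ 4) ^ r = ((l : ℝ) ^ 4 * r) ^ r / (r : ℝ) ^ r := by
          rw [mul_pow]; field_simp
      _ ≤ ((W.card + 1 - r : ℕ) : ℝ) ^ r / (r : ℝ) ^ r := by
          apply div_le_div_of_nonneg_right h4 (by positivity)
      _ ≤ ((W.card + 1 - r : ℕ) : ℝ) ^ r / (r.factorial : ℝ) := by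
          apply div_le_div_of_nonneg_left (by positivity) (by positivity) h2
      _ ≤ _ := h1
  have hTbig : ((l : ℝ) ^ 4) ^ r ≤ (((l + 1) * r : ℕ) : ℝ) * T.card := by
    rw [hTcard]
    calc ((l : ℝ) ^ 4) ^ r ≤ (𝒮.card : ℝ) := hchoose
      _ ≤ _ := by exact_mod_cast hfib
  have hTne : T.Nonempty := by
    rw [Finset.nonempty_iff_ne_empty]
    intro h
    rw [h] at hTbig
    simp only [Finset.card_empty, Nat.cast_zero, mul_zero] at hTbig
    have : (0 : ℝ) < ((l : ℝ) ^ 4) ^ r := by positivity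
    linarith
  have hsmall : 2 ^ j ≤ n ^ r := by
    obtain ⟨x, hx⟩ := hTne
    rw [hT, Finset.mem_image] at hx
    obtain ⟨S, hS, _⟩ := hx
    exact (hT1 S hS).1.trans (hle S (hTS S hS))
  -- apply the shattering lemma
  have hb2 : 2 ≤ 2 * l := by omega
  have h4n : 4 * 2 ^ j ≤ (2 * l) ^ (r * l) := by
    calc 4 * 2 ^ j ≤ 4 * n ^ r := by omega
      _ ≤ 4 ^ r * n ^ r := by
        apply Nat.mul_le_mul_right
        calc 4 = 4 ^ 1 := by norm_num
          _ ≤ 4 ^ r := Nat.pow_le_pow_right (by norm_num) hr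
      _ = (4 * n) ^ r := by rw [mul_pow]
      _ ≤ ((2 * l) ^ l) ^ r := by
        apply Nat.pow_le_pow_left
        calc 4 * n ≤ 4 * 2 ^ (l + 1) := by omega
          _ = 2 ^ (l + 3) := by ring
          _ ≤ 2 ^ (3 * l) := Nat.pow_le_pow_right (by norm_num) (by omega)
          _ = 8 ^ l := by rw [pow_mul]; norm_num
          _ ≤ (2 * l) ^ l := Nat.pow_le_pow_left (by omega) l
      _ = (2 * l) ^ (r * l) := by rw [← pow_mul]; ring_nf
  obtain ⟨L, hL1, ⟨lo, hi, hL2⟩, hL3⟩ := shatter (2 * l) hb2 (r * l) T hTne (1 / 2) (by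
      intro x hx
      rw [hT, Finset.mem_image] at hx
      obtain ⟨S, hS, rfl⟩ := hx
      obtain ⟨h1, h2⟩ := hT1 S hS
      have h3 := hposR S hS
      have h4 : (2 : ℝ) ^ j ≤ π S := by exact_mod_cast h1
      have h5 : (π S : ℝ) < 2 * 2 ^ j := by
        have : π S < 2 * 2 ^ j := by rw [pow_succ] at h2; omega
        exact_mod_cast this
      rw [hf]
      simp only
      constructor
      · rw [le_div_iff₀ h3]; linarith
      · rw [div_lt_iff₀ h3]; linarith) (by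
      intro x hx y hy hxy
      rw [hT, Finset.mem_image] at hx hy
      obtain ⟨S, hS, rfl⟩ := hx
      obtain ⟨S', hS', rfl⟩ := hy
      have g1 := hposR S hS
      have g2 := hposR S' hS'
      rw [hf] at hxy ⊢
      simp only at hxy ⊢
      rw [div_lt_div_iff_of_pos_left h2j g1 g2] at hxy
      have g3 : (π S' : ℝ) + 1 ≤ π S := by
        have : π S' < π S := by exact_mod_cast hxy
        exact_mod_cast this
      have g4 : (π S : ℝ) ≤ 2 * 2 ^ j := by
        have : π S ≤ 2 * 2 ^ j := by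
          have := (hT1 S hS).2
          rw [pow_succ] at this; omega
        exact_mod_cast this
      have g5 : (π S' : ℝ) ≤ 2 * 2 ^ j := by linarith
      have g6 : (((2 * l : ℕ) : ℝ) ^ (r * l))⁻¹ ≤ 1 / (4 * 2 ^ j) := by
        rw [← one_div]
        apply one_div_le_one_div_of_le (by positivity)
        exact_mod_cast h4n
      have g7 : 1 / (4 * (2 : ℝ) ^ j) ≤ 2 ^ j / (π S' : ℝ) - 2 ^ j / (π S : ℝ) := by
        have e1 : 2 ^ j / (π S' : ℝ) - 2 ^ j / (π S : ℝ) =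
            2 ^ j * ((π S : ℝ) - π S') / ((π S' : ℝ) * π S) := by
          field_simp
        rw [e1, div_le_div_iff₀ (by positivity) (by positivity)]
        have e2 : (π S' : ℝ) * π S ≤ (2 * 2 ^ j) * (2 * 2 ^ j) :=
          mul_le_mul g5 g4 g1.le (by positivity)
        have e3 : (1 : ℝ) ≤ (π S : ℝ) - π S' := by linarith
        have e4 : (2 : ℝ) ^ j * 1 ≤ 2 ^ j * ((π S : ℝ) - π S') :=
          mul_le_mul_of_nonneg_left e3 h2j.le
        nlinarith
      linarith)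
  refine ⟨j, L, lo, hi, hsmall, hL1, ?_, ?_⟩
  · -- the length bound
    have h1 : ((1 : ℝ) / 2) ^ r ≤ (1 - 1 / ((2 * l : ℕ) : ℝ)) ^ (r * l) := by
      rw [mul_comm r l, pow_mul]
      exact pow_le_pow_left₀ (by norm_num) (half_le_pow l (by omega)) r
    have h2 : (1 + ((r * l : ℕ) : ℝ) * ((2 * l : ℕ) : ℝ)) ^ L.length ≤ (2 : ℝ) ^ (l * L.length) := by
      rw [pow_mul]
      apply pow_le_pow_left₀ (by positivity)
      have : 1 + r * l * (2 * l) ≤ 2 ^ l := by
        calc 1 + r * l * (2 * l) = 1 + 2 * r * l ^ 2 := by ring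
          _ ≤ _ := hrl
      exact_mod_cast this
    have h3 : ((1 : ℝ) / 2) ^ r * T.card ≤ (2 : ℝ) ^ (l * L.length) := by
      refine le_trans ?_ (hL3.trans h2)
      exact mul_le_mul_of_nonneg_right h1 (by positivity)
    have h4 : ((2 : ℝ) ^ r) * (((l + 1) * r : ℕ) : ℝ) * 2 ^ r ≤ ((l : ℝ) ^ 4) ^ r := by
      have e1 : (((l + 1) * r : ℕ) : ℝ) ≤ ((l : ℝ) + 1) ^ r * 2 ^ r := by
        push_cast
        have e2 : (l : ℝ) + 1 ≤ ((l : ℝ) + 1) ^ r := le_self_pow₀ (by linarith) (by omega)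
        have e3 : (r : ℝ) ≤ 2 ^ r := by exact_mod_cast Nat.lt_two_pow_self.le
        exact mul_le_mul e2 e3 (by positivity) (by positivity)
      calc ((2 : ℝ) ^ r) * (((l + 1) * r : ℕ) : ℝ) * 2 ^ r
          ≤ ((2 : ℝ) ^ r) * (((l : ℝ) + 1) ^ r * 2 ^ r) * 2 ^ r := by
            apply mul_le_mul_of_nonneg_right _ (by positivity)
            exact mul_le_mul_of_nonneg_left e1 (by positivity)
        _ = (8 * ((l : ℝ) + 1)) ^ r := by
            rw [mul_pow]
            rw [show (8 : ℝ) = 2 * 2 * 2 by norm_num, mul_pow, mul_pow]; ring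
        _ ≤ ((l : ℝ) ^ 4) ^ r := by
            apply pow_le_pow_left₀ (by positivity)
            have : (l : ℝ) ^ 4 = l ^ 3 * l := by ring
            rw [this]
            have h64 : (64 : ℝ) ≤ (l : ℝ) ^ 3 := by
              calc (64 : ℝ) = 4 ^ 3 := by norm_num
                _ ≤ _ := pow_le_pow_left₀ (by norm_num) hlR 3
            nlinarith
    have h5 : (2 : ℝ) ^ r ≤ (2 : ℝ) ^ (l * L.length) := by
      have hpos' : (0 : ℝ) < (((l + 1) * r : ℕ) : ℝ) := by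
        have : 0 < (l + 1) * r := by positivity
        exact_mod_cast this
      have e1 : (2 : ℝ) ^ r * (((l + 1) * r : ℕ) : ℝ) * 2 ^ r ≤ (((l + 1) * r : ℕ) : ℝ) * T.card :=
        h4.trans hTbig
      have e2 : (2 : ℝ) ^ r * 2 ^ r ≤ T.card := by
        by_contra hc
        push Not at hc
        have := mul_lt_mul_of_pos_left hc hpos'
        nlinarith
      calc (2 : ℝ) ^ r = ((1 : ℝ) / 2) ^ r * (2 ^ r * 2 ^ r) := by
            rw [← mul_assoc, ← mul_pow]; norm_num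
        _ ≤ ((1 : ℝ) / 2) ^ r * T.card := mul_le_mul_of_nonneg_left e2 (by positivity)
        _ ≤ _ := h3
    exact (pow_le_pow_iff_right₀ (by norm_num : (1 : ℝ) < 2)).mp h5
  · refine hL2.mono ?_
    intro x hx
    rw [hT, Finset.mem_image] at hx
    obtain ⟨S, hS, rfl⟩ := hx
    exact ⟨π S, hdvd S (hTS S hS), (hT1 S hS).1, rfl⟩

end Pool.Agent.W21.HN
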